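import Mathlib
import Pool.Agent.H448.CY.Main

/-!
# Lehmer's problem for polynomials with a cyclotomic cofactor

Let `f ∈ ℤ[X]` be irreducible with Mahler measure `M(f) > 1`, let `D ∈ ℤ[X]` have Mahler measure
one (by Kronecker, `D` is up to sign a product of powers of `X` and of cyclotomic polynomials, with
arbitrary multiplicities), let `t ≥ 1` and `F = D f ^ t`. Put `R = deg F / (t deg f)` and let
`m⁺(F)` be the mean of `log⁺ |F|` over the unit circle. Then

  `log M(f) ≥ c / (R (1 + m⁺(F) / t)) ^ 3`

with an absolute constant `c > 0`. The case `D = 1`, `t = 1` is a bound in terms of `m⁺(f)`; the point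
is that only the product `D f ^ t` has to be small on the circle, not `f` itself.

Method. After a reduction to polynomials `f` that are not polynomials in `X ^ q` (the power
transform of `D` again has Mahler measure one) one has `D ∣ W` for `W = D(-X) D(X²) D(-X²)`, since
for a root of unity `ζ` one of `-ζ`, `ζ²`, `-ζ²` has the same order. So the potential of `D` at the
contracted conjugates of a zero `α` of `f` is bounded above by the potentials of `F(-X)`, `F(X²)`
and `F(-X²)`, minus those of `f(-X) f(X²) f(-X²)` and of `W / D`. The first are bounded above
by `m⁺(F)` (the contractions are chosen by a variational principle such that sums of Poisson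
kernels at the contracted points are bounded), the latter are bounded below by the integrality
of resultants, because `f(-X) f(X²) f(-X²)` and `W / D` do not vanish at `α`. So the energy of the
contracted conjugates is bounded by `O(n R (1 + m⁺(F) / t))`, and the argument of Dobrowolski's type
(Frobenius congruences for all primes in an interval) applies.
-/

set_option autoImplicit false

open Polynomial

namespace Pool.Agent.Results.MP_7ab245_nt.CyclotomicCofactor

/-- the mean of `log⁺ |F|` over the unit circle -/
noncomputable def logPlusMean (F : ℤ[X]) : ℝ :=
  Real.circleAverage (fun z : ℂ => Real.posLog ‖aeval z F‖) 0 1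

/-- Lower bound for the Mahler measure of an irreducible polynomial `f` in terms of the mean of
`log⁺ |D f ^ t|`, where `D` has Mahler measure one. -/
theorem result : ∃ c : ℝ, 0 < c ∧ ∀ (f D : ℤ[X]) (t : ℕ), Irreducible f →
    1 < (f.map (Int.castRingHom ℂ)).mahlerMeasure →
    (D.map (Int.castRingHom ℂ)).mahlerMeasure = 1 → 0 < t →
    c / ((((D * f ^ t).natDegree : ℝ) / ((t : ℝ) * (f.natDegree : ℝ))) *
        (1 + logPlusMean (D * f ^ t) / t)) ^ 3 ≤
      Real.log (f.map (Int.castRingHom ℂ)).mahlerMeasure :=
  Pool.Agent.H448.CY.cyc_main

end Pool.Agent.Results.MP_7ab245_nt.CyclotomicCofactor
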