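import Pool.Agent.H589.Count.Main

/-!
# The number of integer polynomials of small Mahler measure is subexponential in the degree

(a) For every `ε > 0` there is a constant `C` such that, for every `d ≥ 16`, at most
`exp (C d (log log d)² / log d)` nonzero integer polynomials of degree at most `d` have Mahler
measure at most `d ^ (1/2 - ε)`.  In particular, for every constant `c`, the number of the
integer polynomials of degree at most `d` with `1 < M(f) < c` (the possible exceptions to
Lehmer's inequality) is `exp (o(d))`.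

(b) The exponent `1/2` is sharp: at least `2 ^ (d + 1)` integer polynomials of degree at most `d`
have Mahler measure at most `√(d + 1)`.
-/

set_option autoImplicit false

open Polynomial

namespace Pool.Agent.Results.MP_7ab245_nt.FewSmallMeasures

theorem result :
    (∀ ε : ℝ, 0 < ε → ∃ C : ℝ, ∀ d : ℕ, 16 ≤ d →
      {f : ℤ[X] | f ≠ 0 ∧ f.natDegree ≤ d ∧
        (f.map (Int.castRingHom ℂ)).mahlerMeasure ≤ (d : ℝ) ^ (1 / 2 - ε)}.Finite ∧
      ({f : ℤ[X] | f ≠ 0 ∧ f.natDegree ≤ d ∧
        (f.map (Int.castRingHom ℂ)).mahlerMeasure ≤ (d : ℝ) ^ (1 / 2 - ε)}.ncard : ℝ) ≤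
        Real.exp (C * d * Real.log (Real.log d) ^ 2 / Real.log d)) ∧
    (∀ d : ℕ, 2 ^ (d + 1) ≤ {f : ℤ[X] | f ≠ 0 ∧ f.natDegree ≤ d ∧
        (f.map (Int.castRingHom ℂ)).mahlerMeasure ≤ √((d : ℝ) + 1)}.ncard) := by
  refine ⟨fun ε hε => ?_, fun d => Pool.Agent.H589.Count.lower d⟩
  obtain ⟨C, hC⟩ := Pool.Agent.H589.Count.counting ε hε
  exact ⟨C, fun d hd => ⟨Pool.Agent.H589.Count.smallSet_finite d _, hC d hd⟩⟩

end Pool.Agent.Results.MP_7ab245_nt.FewSmallMeasures
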