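import Pool.Agent.H589.Osc.Main
import Pool.Graph.R_seed8.Results.MP_7ab245_nt.LogPlusMean
import Pool.Graph.R_seed8.Results.MP_dc0c68_nt.BoundedLogPlus

/-!
# Lehmer's problem for polynomials with few large oscillations on the unit circle

Let `f` be a reciprocal integer polynomial of degree `2 d`, so that
`F(x) = exp (-i d x) f (exp (i x))` is a real trigonometric polynomial. Let `B ≥ 1`, and suppose that
`F` goes at most `t` times from values larger than `B` to values smaller than `-B` or conversely as
`x` runs through `[0, 2 π]`; oscillations of `F` inside of `[-B, B]`, and arbitrarily large values of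
one sign, do not count. If `f` is irreducible and `M(f) > 1`, then

  `log M(f) ≥ a / (1 + log B + log (1 + t)) ^ 3`

with an absolute constant `a > 0`, provided that the middle coefficients of `F`, those of index
`|k| ≤ 100 t ^ 2 log (1 + t)`, are at most `B` in absolute value. If `F` is bounded on one side,
`F ≥ -B` or `F ≤ B`, then `t = 0` and only the coefficient of index `0` matters. The degree and the
other coefficients play no role.

More generally, one may subtract from `f` any complex polynomial `g`, at the cost of the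
mean `m⁺(g)` of `log⁺ |g|` over the unit circle: the hypotheses are only needed for `p = f - g`.
For arbitrary `f` (not necessarily irreducible) the measure is `1` or bounded away from `1`.

Method. The circle is divided by at most `t + 1` points `w_1, w_2, …` into arcs on which `F` is
alternately `≥ -B` and `≤ B`. With `A(z) = ∏ A_K (conj w_i z)`, where `A_K` is a partial sum of
`(1 - ρ z) ^ (-1/2)`, `ρ = t / (t + 1)`, the function `h = ∏ |z - w_i| |A(z)|²` is at most `e²` on
the circle and, by Jensen's formula, `∫ log h ≥ 0`. The product of `F` with the signed multiplier `h`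
is bounded below by `- B h`, and its integral is a combination of the middle coefficients. This
bounds `∫ |F| h`, hence `∫ log⁺ |F|`, and the lower bound for `M(f)` in terms of `∫ log⁺ |f|`
(`Pool.Graph.R_seed8.Results.MP_7ab245_nt.LogPlusMean`) applies.
-/

set_option autoImplicit false

open Polynomial Real

namespace Pool.Agent.Results.MP_7ab245_nt.LargeOscillations

noncomputable section

/-- The Mahler measure of an integer polynomial. -/
def mahler (f : ℤ[X]) : ℝ := (f.map (Int.castRingHom ℂ)).mahlerMeasure

/-- The mean of `log⁺ |g|` over the unit circle. -/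
def mplus (g : ℂ[X]) : ℝ := circleAverage (fun z : ℂ => log⁺ ‖g.eval z‖) 0 1

/-- The trigonometric polynomial `exp (-i d x) p (exp (i x))`. -/
def trig (p : ℂ[X]) (d : ℕ) (x : ℝ) : ℂ :=
  Complex.exp (-(d * x * Complex.I)) * p.eval (Complex.exp (x * Complex.I))

/-- `P` takes at `m` points `x 0 < x 1 < …` of `[0, 2 π]` alternately values larger than `B` and
values smaller than `-B` (in one of the two orders). -/
def Alternates (P : ℝ → ℝ) (B : ℝ) (m : ℕ) : Prop :=
  ∃ (ε : ℝ) (x : ℕ → ℝ), (ε = 1 ∨ ε = -1) ∧ (∀ i j, i < j → j < m → x i < x j) ∧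
    ∀ i < m, 0 ≤ x i ∧ x i ≤ 2 * π ∧ B < ε * (-1) ^ i * P (x i)

/-- For some `d` the trigonometric polynomial `P(x) = exp (-i d x) p (exp (i x))` is real, it has at
most `t` transitions between values larger than `B` and values smaller than `-B` on `[0, 2 π]`, and
its middle coefficients, of index `k - d` with `|k - d| ≤ 100 t ^ 2 log (1 + t)`, are at most `B` in
absolute value. -/
def FewLargeOscillations (p : ℂ[X]) (B : ℝ) (t : ℕ) : Prop :=
  ∃ d : ℕ, (∀ x : ℝ, (trig p d x).im = 0) ∧
    (∀ k : ℕ, |(k : ℝ) - d| ≤ 100 * (t : ℝ) ^ 2 * Real.log (1 + t) → ‖p.coeff k‖ ≤ B) ∧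
    ¬ Alternates (fun x => (trig p d x).re) B (t + 2)

lemma Alternates.mono {P : ℝ → ℝ} {B B' : ℝ} {m : ℕ} (h : Alternates P B' m) (hB : B ≤ B') :
    Alternates P B m := by
  obtain ⟨ε, x, h1, h2, h3⟩ := h
  exact ⟨ε, x, h1, h2, fun i hi => ⟨(h3 i hi).1, (h3 i hi).2.1, lt_of_le_of_lt hB (h3 i hi).2.2⟩⟩

lemma mplus_bound (p : ℂ[X]) (B : ℝ) (t : ℕ) (hB1 : 1 ≤ B) (h : FewLargeOscillations p B t) :
    mplus p ≤ 14 + Real.log B + 3 * Real.log (1 + t) := by
  obtain ⟨d, hre, hB, halt⟩ := h
  have hex : ∀ x : ℝ, Pool.Agent.H589.Osc.ex x = Complex.exp (x * Complex.I) := by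
    intro x
    unfold Pool.Agent.H589.Osc.ex
    rw [mul_comm]
  apply Pool.Agent.H589.Osc.mplus_le p d (fun x => (trig p d x).re) _ _ _ B hB1 t halt hB
  · unfold trig
    fun_prop
  · intro x
    have h1 : trig p d (x + 2 * π) = trig p d x := by
      unfold trig
      have e1 : Complex.exp (((x + 2 * π : ℝ) : ℂ) * Complex.I) = Complex.exp (x * Complex.I) := by
        push_cast
        rw [add_mul, Complex.exp_add, Complex.exp_two_pi_mul_I, mul_one]
      have e2 : Complex.exp (-(d * ((x + 2 * π : ℝ) : ℂ) * Complex.I)) =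
          Complex.exp (-(d * x * Complex.I)) := by
        have e3 : -((d : ℂ) * ((x + 2 * π : ℝ) : ℂ) * Complex.I) =
            -(d * x * Complex.I) + ((-(d : ℤ) : ℤ) : ℂ) * (2 * π * Complex.I) := by
          push_cast
          ring
        rw [e3, Complex.exp_add, Complex.exp_int_mul_two_pi_mul_I, mul_one]
      rw [e1, e2]
    simp only [h1]
  · intro x
    have h1 : (((trig p d x).re : ℝ) : ℂ) = trig p d x := by
      apply Complex.ext
      · simp
      · simp [hre x]
    simp only [h1]
    rw [hex]
    unfold trig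
    rw [← Complex.exp_nat_mul, ← mul_assoc, ← Complex.exp_add]
    have : (d : ℂ) * (x * Complex.I) + -(d * x * Complex.I) = 0 := by ring
    rw [this, Complex.exp_zero, one_mul]

lemma mplus_add (p g : ℂ[X]) : mplus (p + g) ≤ Real.log 2 + mplus p + mplus g := by
  have hc : ∀ q : ℂ[X], CircleIntegrable (fun z : ℂ => log⁺ ‖q.eval z‖) 0 1 := by
    intro q
    apply Pool.Agent.H589.Few.circ_cont
    apply continuous_posLog.comp
    fun_prop
  have h1 : mplus (p + g) ≤
      circleAverage (fun z : ℂ => (Real.log 2 + log⁺ ‖p.eval z‖) + log⁺ ‖g.eval z‖) 0 1 := by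
    apply circleAverage_mono (hc _)
    · apply Pool.Agent.H589.Few.circ_cont
      have h2 : Continuous (fun z : ℂ => log⁺ ‖p.eval z‖) := by
        apply continuous_posLog.comp
        fun_prop
      have h3 : Continuous (fun z : ℂ => log⁺ ‖g.eval z‖) := by
        apply continuous_posLog.comp
        fun_prop
      fun_prop
    · intro z _
      rw [eval_add]
      have := posLog_norm_add_le (p.eval z) (g.eval z)
      linarith
  have h2 : circleAverage (fun z : ℂ => (Real.log 2 + log⁺ ‖p.eval z‖) + log⁺ ‖g.eval z‖) 0 1 =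
      Real.log 2 + mplus p + mplus g := by
    rw [circleAverage_fun_add _ (hc g), circleAverage_fun_add _ (hc p), circleAverage_const]
    · rfl
    · exact Pool.Agent.H589.Few.circ_cont _ continuous_const
    · apply Pool.Agent.H589.Few.circ_cont
      have h2 : Continuous (fun z : ℂ => log⁺ ‖p.eval z‖) := by
        apply continuous_posLog.comp
        fun_prop
      fun_prop
  linarith

lemma mplus_eq_logPlus (f : ℤ[X]) :
    Pool.Agent.Results.MP_dc0c68_nt.BoundedLogPlus.logPlus f =
      mplus (f.map (Int.castRingHom ℂ)) := by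
  unfold Pool.Agent.Results.MP_dc0c68_nt.BoundedLogPlus.logPlus mplus
  rw [circleAverage_def]
  have h1 := intervalIntegral.mul_integral_comp_mul_left (a := 0) (b := 1)
    (f := fun θ : ℝ => log⁺ ‖(f.map (Int.castRingHom ℂ)).eval (circleMap 0 1 θ)‖) (2 * π)
  rw [mul_zero, mul_one] at h1
  rw [← h1, smul_eq_mul, ← mul_assoc, inv_mul_cancel₀ Real.two_pi_pos.ne', one_mul]
  refine intervalIntegral.integral_congr fun t _ => ?_
  rw [posLog_eq_log_max_one (norm_nonneg _), max_comm]
  unfold Pool.Agent.Results.MP_dc0c68_nt.BoundedLogPlus.value1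
  congr 3
  rw [circleMap_zero]
  congr 2
  push_cast
  ring_nf

theorem result :
    (∃ a : ℝ, 0 < a ∧ ∀ (f : ℤ[X]) (p g : ℂ[X]) (B : ℝ) (t : ℕ), Irreducible f → 1 < mahler f →
      f.map (Int.castRingHom ℂ) = p + g → 1 ≤ B → FewLargeOscillations p B t →
        Real.exp (a / (1 + mplus g + Real.log B + Real.log (1 + t)) ^ 3) ≤ mahler f) ∧
    (∀ (B : ℝ) (t : ℕ), ∃ c : ℝ, 1 < c ∧ ∀ (f : ℤ[X]) (p g : ℂ[X]), f ≠ 0 →
      f.map (Int.castRingHom ℂ) = p + g → mplus g ≤ B → FewLargeOscillations p B t →
        mahler f = 1 ∨ c ≤ mahler f) := by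
  constructor
  · obtain ⟨a, ha, h⟩ := Pool.Agent.Results.MP_7ab245_nt.LogPlusMean.result
    refine ⟨a / 8000, by positivity, ?_⟩
    intro f p g B t hf hM hfp hB hmid
    have h1 := h f hf hM
    unfold mahler
    refine le_trans ?_ h1
    apply Real.exp_le_exp.mpr
    have hmp : circleAverage (fun z : ℂ => log⁺ ‖aeval z f‖) 0 1 =
        mplus (f.map (Int.castRingHom ℂ)) := by
      unfold mplus
      congr 1
      funext z
      rw [aeval_def, eval_map]
      rfl
    rw [hmp, hfp]
    have h2 := mplus_add p g
    have h3 := mplus_bound p B t hB hmid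
    have hlB : 0 ≤ Real.log B := Real.log_nonneg hB
    have hlt : 0 ≤ Real.log (1 + t) := Real.log_nonneg (by
      have : (0:ℝ) ≤ t := Nat.cast_nonneg _
      linarith)
    have hnn : ∀ q : ℂ[X], 0 ≤ mplus q := fun q =>
      circleAverage_nonneg_of_nonneg (fun z _ => posLog_nonneg)
    have hg := hnn g
    have hlog2 : Real.log 2 < 0.6931471808 := Real.log_two_lt_d9
    set X := 1 + mplus g + Real.log B + Real.log (1 + t) with hX
    have hX1 : 1 ≤ X := by rw [hX]; linarith
    have h4 : 1 + mplus (p + g) ≤ 20 * X := by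
      rw [hX]
      linarith
    have h5 : (1 + mplus (p + g)) ^ 3 ≤ (20 * X) ^ 3 := by
      have := hnn (p + g)
      gcongr
    have h6 : a / 8000 / X ^ 3 = a / (20 * X) ^ 3 := by
      rw [mul_pow]
      field_simp
      norm_num
    rw [h6]
    apply div_le_div_of_nonneg_left ha.le _ h5
    have := hnn (p + g)
    positivity
  · intro B t
    obtain ⟨c, hc, h⟩ := Pool.Agent.Results.MP_dc0c68_nt.BoundedLogPlus.result.1
      (Real.log 2 + (14 + Real.log (max 1 B) + 3 * Real.log (1 + t)) + B)
    refine ⟨c, hc, ?_⟩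
    intro f p g hf hfp hg hmid
    apply h f hf
    rw [mplus_eq_logPlus, hfp]
    have h2 := mplus_add p g
    have h3 := mplus_bound p (max 1 B) t (le_max_left _ _) (by
      obtain ⟨d, hre, hk, halt⟩ := hmid
      exact ⟨d, hre, fun k hk' => (hk k hk').trans (le_max_right _ _),
        fun hc => halt (hc.mono (le_max_right _ _))⟩)
    linarith

end

end Pool.Agent.Results.MP_7ab245_nt.LargeOscillations
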