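import Mathlib
import Pool.Agent.H448.RU.Main

/-!
# Lehmer's problem and the values of the polynomial at the `N`-th roots of unity

There is an absolute constant `c > 0` such that for every irreducible `f ∈ ℤ[X]` with `M(f) > 1` and
every `N ≥ 1`

  `log M(f) ≥ c / (1 + deg f / N + K_N(f)) ^ 3`,

where `K_N(f)` is the mean of `log⁺ |f(ζ)|` over the `N`-th roots of unity `ζ`. In particular, if
`f ≡ g mod (X ^ N - 1)` then `log M(f) ≥ c / (1 + deg f / N + log L(g)) ^ 3`, where `L(g)` is the sum
of the absolute values of the coefficients of `g`; nothing is assumed on the size of `f`.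

Method. Let `b_j` be the reflected zeros of `f` and `U(x) = -∑ log |1 - x conj b_j|`, so that
`U(ζ) = log M(f) - log |f(ζ)|` on the unit circle. As the resultant of `f` and `X ^ N - 1` is a
nonzero integer, the sum of the positive parts of the `U(ζ)`, `ζ ^ N = 1`, is at most
`N (log M(f) + K_N(f))`. A comparison of Poisson kernels at distance `≫ 1/N` from the circle (an
inequality of Harnack type, relative to the mean) shows that the mean of `|U|` over the circle of
radius `1 - 128 / N` is at most `3 K_N(f) + O(1 + deg f / N)`. This is used as input of the energy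
method of the library's `LogPlusMean`, with contraction factors at least `128 / N`. Polynomials in
`X ^ q` are reduced to smaller degree (if `q ∣ N` then `K_N(g(X ^ q)) = K_{N/q}(g)`, otherwise
`K_N(g(X ^ q)) = K_N(g)`), and `N < 512` is elementary from the library's `LogPlusMean`.
-/

set_option autoImplicit false

open Polynomial

namespace Pool.Agent.Results.MP_7ab245_nt.RootsOfUnityMean

/-- the mean of `log⁺ |f(ζ)|` over the `N`-th roots of unity `ζ` -/
noncomputable def rootMean (N : ℕ) (f : ℤ[X]) : ℝ :=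
  (∑ ζ ∈ nthRootsFinset N (1 : ℂ), Real.posLog ‖aeval ζ f‖) / N

/-- the sum of the absolute values of the coefficients -/
noncomputable def len (g : ℤ[X]) : ℝ := ∑ i ∈ g.support, |(g.coeff i : ℝ)|

lemma norm_aeval_le (g : ℤ[X]) {z : ℂ} (hz : ‖z‖ = 1) : ‖aeval z g‖ ≤ len g := by
  rw [aeval_eq_sum_range]
  have h1 : ∑ i ∈ Finset.range (g.natDegree + 1), g.coeff i • z ^ i = ∑ i ∈ g.support, g.coeff i • z ^ i := by
    symm
    apply Finset.sum_subset
    · intro i hi
      rw [Finset.mem_range]
      exact Nat.lt_succ_of_le (le_natDegree_of_mem_supp i hi)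
    · intro i _ hi
      rw [notMem_support_iff.mp hi, zero_smul]
  rw [h1]
  refine (norm_sum_le _ _).trans (le_of_eq ?_)
  unfold len
  refine Finset.sum_congr rfl fun i _ => ?_
  rw [zsmul_eq_mul, norm_mul, norm_pow, hz, one_pow, mul_one, Complex.norm_intCast]

lemma posLog_len (g : ℤ[X]) : Real.posLog (len g) = Real.log (len g) := by
  by_cases hg : g = 0
  · subst hg
    unfold len
    simp
  · apply Real.posLog_eq_log
    have h1 : ((g.leadingCoeff : ℤ) : ℝ) ≠ 0 := by exact_mod_cast leadingCoeff_ne_zero.mpr hg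
    have h2 : |(g.coeff g.natDegree : ℝ)| ≤ len g := by
      unfold len
      exact Finset.single_le_sum (f := fun i => |(g.coeff i : ℝ)|) (fun i _ => abs_nonneg _)
        (natDegree_mem_support_of_nonzero hg)
    have h3 : (1:ℝ) ≤ |(g.coeff g.natDegree : ℝ)| := by
      have h4 : 1 ≤ |g.leadingCoeff| := Int.one_le_abs (leadingCoeff_ne_zero.mpr hg)
      exact_mod_cast h4
    rw [abs_of_nonneg (by linarith)]
    linarith

lemma rootMean_le {N : ℕ} (hN : 0 < N) {f g : ℤ[X]} (h : (X ^ N - 1 : ℤ[X]) ∣ f - g) :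
    rootMean N f ≤ Real.log (len g) := by
  have hN0 : (0:ℝ) < N := by exact_mod_cast hN
  obtain ⟨u, hu⟩ := h
  have h1 : ∀ ζ ∈ nthRootsFinset N (1 : ℂ), Real.posLog ‖aeval ζ f‖ ≤ Real.log (len g) := by
    intro ζ hζ
    have h2 : aeval ζ f = aeval ζ g := by
      have h3 : f = g + (X ^ N - 1) * u := by rw [← hu]; ring
      rw [mem_nthRootsFinset hN] at hζ
      rw [h3, map_add, map_mul, map_sub, map_pow, aeval_X, map_one, hζ, sub_self, zero_mul, add_zero]
    rw [h2, ← posLog_len]
    exact Real.posLog_le_posLog (norm_nonneg _)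
      (norm_aeval_le g (Y947.DL.norm_of_mem_grid hN hζ))
  have h2 := Finset.sum_le_sum h1
  rw [Finset.sum_const, Y947.DL.card_grid hN, nsmul_eq_mul] at h2
  unfold rootMean
  rw [div_le_iff₀ hN0]
  linarith

theorem result : ∃ c : ℝ, 0 < c ∧ ∀ f : ℤ[X], Irreducible f →
    1 < (f.map (Int.castRingHom ℂ)).mahlerMeasure → ∀ N : ℕ, 0 < N →
      c / (1 + f.natDegree / N + rootMean N f) ^ 3 ≤
        Real.log (f.map (Int.castRingHom ℂ)).mahlerMeasure ∧
      ∀ g : ℤ[X], (X ^ N - 1 : ℤ[X]) ∣ f - g →
        c / (1 + f.natDegree / N + Real.log (len g)) ^ 3 ≤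
          Real.log (f.map (Int.castRingHom ℂ)).mahlerMeasure := by
  obtain ⟨c, hc0, hc⟩ := H448.RU.ru_main
  refine ⟨c, hc0, ?_⟩
  intro f hf hM N hN
  have h1 : c / (1 + f.natDegree / N + rootMean N f) ^ 3 ≤
        Real.log (f.map (Int.castRingHom ℂ)).mahlerMeasure := hc f hf hM N hN
  refine ⟨h1, ?_⟩
  intro g hg
  refine le_trans ?_ h1
  have h2 := rootMean_le hN hg
  have h3 : 0 ≤ rootMean N f := H448.RU.KN_nonneg N f
  have h4 : 0 ≤ (f.natDegree : ℝ) / N := by positivity
  exact H448.RU.div_mono_den hc0.le (by linarith) (by linarith)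

end Pool.Agent.Results.MP_7ab245_nt.RootsOfUnityMean
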